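import Pool.Agent.Helper73.DC.St8

/-!
# DC module G3 (helper12): the kinds of the nodes of a word

Statement: `Pool.Agent.Helper73.DC.StG3` (helper73).
-/

set_option autoImplicit false

namespace Pool.Agent.Helper12.DC

open Pool.Agent.Helper73.DC
open Finset
open scoped Classical

/-! ### digits -/

theorem g3_pcd_succ (n : ℕ) {k : ℕ} (p : Fin (k + 1) → ℕ) :
    pcd n p = p 0 + (n + 2) * pcd n (fun j : Fin k => p j.succ) := by
  unfold pcd
  rw [Fin.sum_univ_succ, Finset.mul_sum]
  congr 1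
  · simp
  · apply Finset.sum_congr rfl
    intro j _
    rw [Fin.val_succ, pow_succ]
    ring

theorem g3_pcd_lt (n : ℕ) {k : ℕ} (p : Fin k → ℕ) (hp : ∀ j, p j ≤ n + 1) :
    pcd n p < (n + 2) ^ k := by
  induction k with
  | zero => simp [pcd]
  | succ k ih =>
    have h1 := ih (fun j => p j.succ) (fun j => hp j.succ)
    have h2 := hp 0
    rw [g3_pcd_succ, pow_succ]
    calc p 0 + (n + 2) * pcd n (fun j : Fin k => p j.succ)
        < (n + 2) + (n + 2) * pcd n (fun j : Fin k => p j.succ) := by omega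
      _ = (pcd n (fun j : Fin k => p j.succ) + 1) * (n + 2) := by ring
      _ ≤ (n + 2) ^ k * (n + 2) := Nat.mul_le_mul_right _ h1

theorem g3_dg (n : ℕ) {k : ℕ} (p : Fin k → ℕ) (hp : ∀ j, p j ≤ n + 1) (j : Fin k) :
    dg (n + 2) (pcd n p) j = p j := by
  induction k with
  | zero => exact j.elim0
  | succ k ih =>
    rw [g3_pcd_succ]
    have h0 : p 0 < n + 2 := by have := hp 0; omega
    refine Fin.cases ?_ (fun i => ?_) j
    · unfold dg
      rw [Fin.val_zero, pow_zero, Nat.div_one, Nat.add_mul_mod_self_left, Nat.mod_eq_of_lt h0]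
    · have h1 := ih (fun j => p j.succ) (fun j => hp j.succ) i
      unfold dg at h1 ⊢
      rw [Fin.val_succ, pow_succ', ← Nat.div_div_eq_div_mul,
        Nat.add_mul_div_left _ _ (by omega : 0 < n + 2), Nat.div_eq_of_lt h0, Nat.zero_add]
      exact h1

theorem g3_sy {α : Type} [Fintype α] (w : List α) (i : ℕ) : sy w i = scd (symAt w i) := by
  unfold sy symAt lett
  split_ifs with h
  · rfl
  · cases w[i - 1]? with
    | none => rfl
    | some a => rfl

theorem g3_mvc (d : Mv) (p : ℕ) : mvc (mvd d) p = mvN d p := by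
  cases d <;> rfl

/-- Module G3. -/
theorem mG3 : StG3 := by
  intro α _ M T K num qn h w p hp
  -- basic facts on the nodes
  have hPn : T.P w.length = (w.length + 2) ^ M.k := by rw [MTab.P, h.hk]
  have hPpos : 0 < T.P w.length := by rw [hPn]; positivity
  have hlt : ∀ p' : Fin M.k → ℕ, (∀ j, p' j ≤ w.length + 1) → pcd w.length p' < T.P w.length := by
    intro p' hp'
    rw [hPn]; exact g3_pcd_lt _ _ hp'
  have hdiv : ∀ t (p' : Fin M.k → ℕ), (∀ j, p' j ≤ w.length + 1) →
      (t * (w.length + 2) ^ M.k + pcd w.length p') / T.P w.length = t := by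
    intro t p' hp'
    rw [← hPn, Nat.add_comm, Nat.add_mul_div_right _ _ hPpos, Nat.div_eq_of_lt (hlt p' hp'),
      Nat.zero_add]
  have hmod : ∀ t (p' : Fin M.k → ℕ), (∀ j, p' j ≤ w.length + 1) →
      (t * (w.length + 2) ^ M.k + pcd w.length p') % T.P w.length = pcd w.length p' := by
    intro t p' hp'
    rw [← hPn, Nat.add_comm, Nat.add_mul_mod_self_right, Nat.mod_eq_of_lt (hlt p' hp')]
  have hac : ∀ q β, β.length ≤ K → mnd M num w.length q β p < T.ac w.length := by
    intro q β hβ
    unfold mnd MTab.ac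
    rw [← hPn]
    calc num q β * T.P w.length + pcd w.length p
        < num q β * T.P w.length + T.P w.length := Nat.add_lt_add_left (hlt p hp) _
      _ = (num q β + 1) * T.P w.length := by ring
      _ ≤ T.F * T.P w.length := Nat.mul_le_mul_right _ (h.hnum q β hβ)
  have hsc : T.sc w (pcd w.length p) = vcd (fun j => symAt w (p j)) := by
    unfold MTab.sc vcd
    rw [h.hk, Finset.sum_range]
    apply Finset.sum_congr rfl
    intro j _
    rw [g3_dg _ _ hp, g3_sy]
  have hnd : ∀ q β, mnd M num w.length q β p / T.P w.length = num q β := fun q β =>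
    hdiv _ p hp
  have hnm : ∀ q β, mnd M num w.length q β p % T.P w.length = pcd w.length p := fun q β =>
    hmod _ p hp
  have hkd : ∀ q β, β.length ≤ K → T.kd w (mnd M num w.length q β p) =
      T.tk (num q β) (vcd (fun j => symAt w (p j))) := by
    intro q β hβ
    unfold MTab.kd
    rw [if_pos (hac q β hβ), hnd, hnm, hsc]
  have hK1 : ∀ Z : M.Γ, [Z].length ≤ K := fun Z => h.hK
  refine ⟨?_, ?_, ?_, ?_, ?_, ?_⟩
  · intro q β hβ hq
    unfold MTab.lf
    rw [hkd q β hβ, h.kacc q β _ hβ hq, if_pos rfl]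
  · intro q hq
    have hβ : ([] : List M.Γ).length ≤ K := Nat.zero_le _
    have hk := hkd q [] hβ
    rw [(h.knil q _ hq).1] at hk
    unfold MTab.lf
    rw [hk, if_neg one_ne_zero, if_pos ⟨rfl, hac q [] hβ⟩, hnd, hnm, (h.knil q 0 hq).2, hPn]
  · intro q Z q' d γ hq htr
    have h3 := h.ktr q Z _ q' d γ hq htr
    have hk := hkd q [Z] (hK1 Z)
    rw [h3.1] at hk
    refine ⟨?_, ?_, ?_⟩
    · unfold MTab.lf
      rw [hk, if_neg (by norm_num), if_neg (by rintro ⟨h4, _⟩; omega)]
    · unfold MTab.cl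
      rw [hk, if_neg (by norm_num), if_neg (by norm_num)]
    · unfold MTab.rs
      rw [hk, if_pos rfl, hnd, hnm, hsc, h3.2.1, hPn]
      show num q' γ * (w.length + 2) ^ M.k + T.np w (num q [Z]) (pcd w.length p) =
        num q' γ * (w.length + 2) ^ M.k + pcd w.length (nps w d p)
      congr 1
      unfold MTab.np pcd
      rw [h.hk, Finset.sum_range]
      apply Finset.sum_congr rfl
      intro j _
      have h5 : T.sc w (∑ j : Fin M.k, p j * (w.length + 2) ^ (j : ℕ)) =
          vcd (fun j => symAt w (p j)) := hsc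
      have h6 : dg (w.length + 2) (∑ j : Fin M.k, p j * (w.length + 2) ^ (j : ℕ)) j = p j :=
        g3_dg _ _ hp j
      rw [h5, h6, h3.2.2 j, g3_mvc]
      rfl
  · intro q Z hq htr
    have hk := hkd q [Z] (hK1 Z)
    rw [h.kst q Z _ hq htr] at hk
    refine ⟨?_, ?_⟩
    · unfold MTab.lf
      rw [hk, if_neg (by norm_num), if_neg (by rintro ⟨h4, _⟩; omega)]
    · unfold MTab.cl
      rw [hk, if_neg (by norm_num), if_pos rfl]
  · intro q Z Y β hβ hq
    have h5 := h.ksq q Z Y β (vcd (fun j => symAt w (p j))) hβ hq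
    have hk := hkd q (Z :: Y :: β) hβ
    rw [h5.1] at hk
    refine ⟨?_, ?_, ?_, ?_⟩
    · unfold MTab.lf
      rw [hk, if_neg (by norm_num), if_neg (by rintro ⟨h4, _⟩; omega)]
    · unfold MTab.cl
      rw [hk, if_pos rfl, hnd, hnm, hsc, h5.2.1, hPn]
      rfl
    · unfold MTab.rs
      rw [hk, if_neg (by norm_num), if_neg (by norm_num), if_neg (by rintro ⟨_, h6, _⟩; exact h6 rfl)]
    · intro q' p' hp'
      have hr : qn q' * (w.length + 2) ^ M.k + pcd w.length p' + 1 - 1 =
          qn q' * (w.length + 2) ^ M.k + pcd w.length p' := Nat.add_sub_cancel _ _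
      unfold MTab.rs
      rw [hk, if_neg (by norm_num), if_neg (by norm_num), hr, hdiv _ p' hp', hmod _ p' hp',
        if_pos ⟨rfl, Nat.succ_ne_zero _, h.hqn q'⟩, hnd, h5.2.2 q', hPn]
      rfl
  · unfold MTab.lf MTab.kd
    rw [if_neg (lt_irrefl _), if_pos rfl, if_pos rfl]

end Pool.Agent.Helper12.DC
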